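import Mathlib
import Pool.Agent.N119.PS.Stm2

set_option autoImplicit false

/-!
# Project PSC2, leaf PSP: no Patterson-Sullivan measure is concentrated on one letter
-/

namespace Pool.Agent.N665.PSC

open Pool.Agent.H472R3 Pool.Agent.H67R3.FSR Pool.Agent.H67R4.SR MeasureTheory Topology Filter
open Pool.Agent.N119.PS
open scoped ENNReal NNReal

theorem t : Pool.Agent.N119.PS.S_PSP := by
  intro N hN A ν hν x a
  by_contra h
  have h0 : ν x {ξ : Bd N | ξ.1 1 ≠ a} = 0 := by
    simpa using h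
  obtain ⟨i, hi⟩ : ∃ i : Fin N, i ≠ a.1 := by
    have : Nontrivial (Fin N) := Fin.nontrivial_iff_two_le.2 hN
    exact exists_ne a.1
  let b : Lt N := (i, true)
  have hba : b ≠ a := fun e => hi (congrArg Prod.fst e)
  have hE : MeasurableSet {ξ : Bd N | ξ.1 1 = a} := by
    apply IsClosed.measurableSet
    exact isClosed_singleton.preimage (continuous_eval (N := N) 1)
  have hm : Measurable fun ξ : Bd N => (lt b)⁻¹ • ξ := (continuous_smul_bd _).measurable
  have hsub : (fun ξ : Bd N => (lt b)⁻¹ • ξ) ⁻¹' {ξ : Bd N | ξ.1 1 = a} ⊆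
      {ξ : Bd N | ξ.1 1 ≠ a} := by
    intro ξ hξ
    have h1 : ξ.1 (lt b) = a := by
      have h2 : ((lt b)⁻¹ • ξ).1 1 = a := hξ
      rw [Bd.smul_apply, inv_inv, mul_one] at h2
      exact h2
    intro h3
    have h4 : ξ.1 1 ≠ b := by
      rw [h3]
      exact hba.symm
    have h5 := (ξ.2 1 b).2 h4
    rw [one_mul, h1] at h5
    apply hi
    rw [h5]
    rfl
  have h1 : ν ((lt b)⁻¹ • x) {ξ : Bd N | ξ.1 1 = a} = 0 := by
    rw [← hν.equivariant, Measure.map_apply hm hE]
    exact measure_mono_null hsub h0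
  have h2 : ν x {ξ : Bd N | ξ.1 1 = a} = 0 := by
    rw [hν.conformal ((lt b)⁻¹ • x) x]
    exact withDensity_absolutelyContinuous _ _ h1
  apply hν.ne_zero x
  rw [← Measure.measure_univ_eq_zero]
  have h3 : (Set.univ : Set (Bd N)) = {ξ : Bd N | ξ.1 1 = a} ∪ {ξ : Bd N | ξ.1 1 ≠ a} := by
    ext ξ
    simp only [Set.mem_univ, Set.mem_union, Set.mem_ofPred_eq, true_iff]
    exact em _
  rw [h3]
  exact measure_union_null h2 h0

end Pool.Agent.N665.PSC
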